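import Pool.Agent.H385R2.NLowDCore
import Pool.Agent.W354.GE.LocalE
import Pool.Agent.W354.GE.EFE

set_option autoImplicit false

/-!
Lower bound for the number of zeros (adapted from `Pool.Agent.H385R2.NLowDCore`).
-/

open Complex Filter Topology Set MeasureTheory
open H370 (zset mult NN Nd Ns)

namespace Pool.Agent.W354.E

open H385 H385.NLow H385.Cut

/-- `N_lower_E` from the statements `zset_finite_D`, `zcount_long_D`, `A1_formula_D` -/
theorem N_lower_core_E (d A : ℝ) (hd : 1 ≤ d)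
    (hfin0 : ∀ (lc : ℝ → ℝ) (F : ℂ → ℂ) (a : ℕ → ℂ), LogC lc → GoodE d A lc F a →
      ∀ T1 T2 : ℝ, 1 ≤ T1 → (zset F T1 T2).Finite)
    (hcnt0 : ∃ C : ℝ, 0 < C ∧ ∀ (lc : ℝ → ℝ) (F : ℂ → ℂ) (a : ℕ → ℂ), LogC lc →
      GoodE d A lc F a → ∀ T1 T2 : ℝ, 3 ≤ T1 → T1 + 1 ≤ T2 →
      (NN F T1 T2 : ℝ) ≤ C * (T2 - T1) * lc T2)
    (hEF0 : ∃ C : ℝ, 0 < C ∧ ∀ (lc : ℝ → ℝ) (F : ℂ → ℂ) (a : ℕ → ℂ), LogC lc →
      GoodE d A lc F a → ∀ T κ : ℝ, 3 ≤ κ → 8 * κ ≤ T →
      ∃ V1 V2 : ℝ, T - 3 * κ ≤ V1 ∧ V1 ≤ T - 3 * κ + 1 ∧ 2 * T + 3 * κ - 1 ≤ V2 ∧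
        V2 ≤ 2 * T + 3 * κ ∧
      ∀ u m : ℝ, 0 ≤ u → V1 + κ ≤ m → m ≤ V2 - κ →
        ‖A1 F V1 V2 u m - (1 / (2 * Real.sqrt Real.pi) : ℝ) *
          (((d * lc T : ℝ) : ℂ) * cexp (I * m * u) * Real.exp (-u ^ 2 / 4) - PP1 a u m)‖ ≤
        C * (Real.exp (-u) + (lc T) ^ 2 * Real.exp (u - κ ^ 2 / 2))) :
    ∃ C : ℝ, 0 < C ∧ ∀ (lc : ℝ → ℝ) (F : ℂ → ℂ) (a : ℕ → ℂ), LogC lc → GoodE d A lc F a →
    ∀ T κ : ℝ, 3 ≤ κ → 8 * κ ≤ T →
      T / (2 * Real.pi) * (d * lc T) -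
        C * (T + κ * lc T + T * lc T ^ 2 * Real.exp (-κ ^ 2 / 2)) ≤
      (NN F T (2 * T) : ℝ) := by
  obtain ⟨C1, hC1, hZ⟩ := hcnt0
  obtain ⟨C2, hC2, hEF⟩ := hEF0
  have hdK : 0 ≤ d * K0 := mul_nonneg (by linarith) K0_nonneg
  refine ⟨d * K0 + C2 + 16 * C1 + 1, by linarith [K0_nonneg], fun lc F a hQ hF T κ hκ hT => ?_⟩
  obtain ⟨V1, V2, hV1, hV1', hV2, hV2', hform⟩ := hEF lc F a hQ hF T κ hκ hT
  have hfin := hfin0 lc F a hQ hF V1 V2 (by linarith)
  have hT24 : 24 ≤ T := by linarith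
  set L := lc T with hL
  set ε := Real.exp (-κ ^ 2 / 2) with hε
  have hε0 : 0 < ε := Real.exp_pos _
  have hL1 : 2 ≤ L := by
    have h1 : Real.exp 2 ≤ 24 := by
      have h := Real.exp_one_lt_d9
      have h' : Real.exp 2 = Real.exp 1 * Real.exp 1 := by rw [← Real.exp_add]; norm_num
      nlinarith [Real.exp_pos 1]
    refine le_trans ?_ (hQ.low T (by linarith))
    rw [Real.le_log_iff_exp_le (by positivity)]
    linarith
  have hlog : ∀ x : ℝ, 1 ≤ x → x ≤ 3 * T → lc x ≤ 2 * L := by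
    intro x hx0 hx
    have h1 := hQ.le_add (x := T) (y := x) (by linarith) hx0 hx
    have h3 := LogC.log3
    linarith
  -- integral lower bound
  have hsp := Cut.sqrt_pi_pos
  have hsq1 : Real.sqrt Real.pi ^ 2 = Real.pi := Real.sq_sqrt Real.pi_pos.le
  have hlow : ∀ m ∈ Icc T (2 * T), 1 / (2 * Real.sqrt Real.pi) * (d * L - d * K0) - C2 * (1 + L ^ 2 * ε) ≤
      (A1 F V1 V2 0 m).re := by
    intro m hm
    have h1 := hform 0 m le_rfl (by linarith [hm.1]) (by linarith [hm.2])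
    have h2 : (((d * L : ℝ) : ℂ) * cexp (I * m * (0 : ℝ)) * (Real.exp (-(0:ℝ) ^ 2 / 4) : ℂ) - PP1 a 0 m) =
        ((d * L : ℝ) : ℂ) - PP1 a 0 m := by simp
    rw [h2] at h1
    have h3 : C2 * (Real.exp (-(0:ℝ)) + L ^ 2 * Real.exp (0 - κ ^ 2 / 2)) = C2 * (1 + L ^ 2 * ε) := by
      rw [neg_zero, Real.exp_zero, zero_sub, hε]
      congr 4
      ring
    rw [h3] at h1
    have h4 := (abs_le.mp ((Complex.abs_re_le_norm _).trans h1)).1
    rw [Complex.sub_re, Complex.re_ofReal_mul, Complex.sub_re, Complex.ofReal_re] at h4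
    have h5 : (PP1 a 0 m).re ≤ d * K0 :=
      (Complex.re_le_norm _).trans (PP1_zero_le_D d a hF.ha m)
    have h6 : 1 / (2 * Real.sqrt Real.pi) * (d * L - d * K0) ≤
        1 / (2 * Real.sqrt Real.pi) * (d * L - (PP1 a 0 m).re) := by
      apply mul_le_mul_of_nonneg_left (by linarith) (by positivity)
    linarith
  have hcont : Continuous (fun m : ℝ => A1 F V1 V2 0 m) := by
    simp only [A1_zero F V1 V2 hfin]
    fun_prop
  have hint : T * (1 / (2 * Real.sqrt Real.pi) * (d * L - d * K0) - C2 * (1 + L ^ 2 * ε)) ≤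
      (∫ m in T..(2 * T), A1 F V1 V2 0 m).re := by
    have h1 : (∫ m in T..(2 * T), A1 F V1 V2 0 m).re = ∫ m in T..(2 * T), (A1 F V1 V2 0 m).re := by
      have := (Complex.reCLM.intervalIntegral_comp_comm
        (hcont.intervalIntegrable (μ := volume) T (2 * T)))
      simpa using this.symm
    rw [h1]
    have h2 : ∫ m in T..(2 * T), (1 / (2 * Real.sqrt Real.pi) * (d * L - d * K0) - C2 * (1 + L ^ 2 * ε)) =
        T * (1 / (2 * Real.sqrt Real.pi) * (d * L - d * K0) - C2 * (1 + L ^ 2 * ε)) := by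
      rw [intervalIntegral.integral_const, smul_eq_mul]
      ring
    rw [← h2]
    apply intervalIntegral.integral_mono_on (by linarith)
    · exact continuous_const.intervalIntegrable _ _
    · exact (Complex.continuous_re.comp hcont).intervalIntegrable _ _
    · exact hlow
  -- upper bound of the zero side
  have hup : ∀ s ∈ hfin.toFinset, (c1 T (zz s)).re ≤
      (if T < s.im ∧ s.im ≤ 2 * T then 1 else 0) +
      2 * (if T - κ < s.im ∧ s.im ≤ T + κ then 1 else 0) +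
      2 * (if 2 * T - κ < s.im ∧ s.im ≤ 2 * T + κ then 1 else 0) +
      2 * ε * (if V1 < s.im ∧ s.im ≤ V2 then 1 else 0) := by
    intro s hs
    rw [Finite.mem_toFinset] at hs
    obtain ⟨hs1, hs2, hs3, hs4, _⟩ := hs
    have him : |(zz s).im| ≤ 1 / 2 := by
      rw [zz_im, abs_le]
      constructor <;> linarith
    rw [if_pos (⟨hs3, hs4⟩ : V1 < s.im ∧ s.im ≤ V2)]
    have i1 : (0:ℝ) ≤ if T < s.im ∧ s.im ≤ 2 * T then 1 else 0 := by split_ifs <;> norm_num
    have i2 : (0:ℝ) ≤ if T - κ < s.im ∧ s.im ≤ T + κ then 1 else 0 := by split_ifs <;> norm_num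
    have i3 : (0:ℝ) ≤ if 2 * T - κ < s.im ∧ s.im ≤ 2 * T + κ then 1 else 0 := by
      split_ifs <;> norm_num
    rcases le_or_gt s.im (T - κ) with h1 | h1
    · have := c1_far T κ (by linarith) (by linarith) (zz s) him (Or.inl (by rw [zz_re]; exact h1))
      have h2 := Complex.re_le_norm (c1 T (zz s))
      linarith
    rcases le_or_gt s.im (T + κ) with h2 | h2
    · have := c1_bound T (by linarith) (zz s) him
      have h3 := Complex.re_le_norm (c1 T (zz s))
      rw [if_pos (⟨h1, h2⟩ : T - κ < s.im ∧ s.im ≤ T + κ)]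
      linarith
    rcases le_or_gt s.im (2 * T - κ) with h3 | h3
    · have := c1_near T κ (by linarith) (zz s) him (by rw [zz_re]; exact h2.le)
        (by rw [zz_re]; exact h3)
      have h4 := Complex.re_le_norm (c1 T (zz s) - 1)
      rw [Complex.sub_re, Complex.one_re] at h4
      rw [if_pos (⟨by linarith, by linarith⟩ : T < s.im ∧ s.im ≤ 2 * T)]
      linarith
    rcases le_or_gt s.im (2 * T + κ) with h4 | h4
    · have := c1_bound T (by linarith) (zz s) him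
      have h5 := Complex.re_le_norm (c1 T (zz s))
      rw [if_pos (⟨h3, h4⟩ : 2 * T - κ < s.im ∧ s.im ≤ 2 * T + κ)]
      linarith
    · have := c1_far T κ (by linarith) (by linarith) (zz s) him (Or.inr (by rw [zz_re]; exact h4.le))
      have h5 := Complex.re_le_norm (c1 T (zz s))
      linarith
  have hsum : (∑ s ∈ hfin.toFinset, (mult F s : ℂ) * c1 T (zz s)).re ≤
      NN F T (2 * T) + 2 * NN F (T - κ) (T + κ) + 2 * NN F (2 * T - κ) (2 * T + κ) +
        2 * ε * NN F V1 V2 := by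
    rw [Complex.re_sum, NN_eq_sum F V1 V2 hfin T (2 * T) (by linarith) (by linarith),
      NN_eq_sum F V1 V2 hfin (T - κ) (T + κ) (by linarith) (by linarith),
      NN_eq_sum F V1 V2 hfin (2 * T - κ) (2 * T + κ) (by linarith) (by linarith),
      NN_eq_sum F V1 V2 hfin V1 V2 le_rfl le_rfl, Finset.mul_sum, Finset.mul_sum, Finset.mul_sum,
      ← Finset.sum_add_distrib, ← Finset.sum_add_distrib, ← Finset.sum_add_distrib]
    apply Finset.sum_le_sum
    intro s hs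
    have h1 : ((mult F s : ℂ) * c1 T (zz s)).re = (mult F s : ℝ) * (c1 T (zz s)).re := by
      rw [show (mult F s : ℂ) = ((mult F s : ℝ) : ℂ) by push_cast; rfl, Complex.re_ofReal_mul]
    rw [h1]
    have h2 := mul_le_mul_of_nonneg_left (hup s hs) (Nat.cast_nonneg (α := ℝ) (mult F s))
    refine h2.trans (le_of_eq ?_)
    ring
  have hcount1 := hZ lc F a hQ hF (T - κ) (T + κ) (by linarith) (by linarith)
  have hcount2 := hZ lc F a hQ hF (2 * T - κ) (2 * T + κ) (by linarith) (by linarith)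
  have hcount3 := hZ lc F a hQ hF V1 V2 (by linarith) (by linarith)
  have hl1 := hlog (T + κ) (by linarith) (by linarith)
  have hl2 := hlog (2 * T + κ) (by linarith) (by linarith)
  have hl3 := hlog V2 (by linarith) (by linarith)
  have hκ0 : 0 < κ := by linarith
  have hT0 : 0 < T := by linarith
  have g1 : (NN F (T - κ) (T + κ) : ℝ) ≤ 4 * C1 * κ * L := by
    have : T + κ - (T - κ) = 2 * κ := by ring
    rw [this] at hcount1
    calc _ ≤ _ := hcount1
      _ ≤ C1 * (2 * κ) * (2 * L) := mul_le_mul_of_nonneg_left hl1 (by positivity)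
      _ = _ := by ring
  have g2 : (NN F (2 * T - κ) (2 * T + κ) : ℝ) ≤ 4 * C1 * κ * L := by
    have : 2 * T + κ - (2 * T - κ) = 2 * κ := by ring
    rw [this] at hcount2
    calc _ ≤ _ := hcount2
      _ ≤ C1 * (2 * κ) * (2 * L) := mul_le_mul_of_nonneg_left hl2 (by positivity)
      _ = _ := by ring
  have g3 : (NN F V1 V2 : ℝ) ≤ 4 * C1 * T * L := by
    calc _ ≤ _ := hcount3
      _ ≤ C1 * (V2 - V1) * (2 * L) := mul_le_mul_of_nonneg_left hl3
          (mul_nonneg hC1.le (by linarith))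
      _ ≤ C1 * (2 * T) * (2 * L) := by
          apply mul_le_mul_of_nonneg_right _ (by linarith)
          apply mul_le_mul_of_nonneg_left (by linarith) hC1.le
      _ = _ := by ring
  have hA1 := A1_integral F V1 V2 T hfin
  have hre := congrArg Complex.re hA1
  rw [Complex.re_ofReal_mul] at hre
  have hfinal : 1 / Real.sqrt Real.pi *
      (T * (1 / (2 * Real.sqrt Real.pi) * (d * L - d * K0) - C2 * (1 + L ^ 2 * ε))) ≤
      NN F T (2 * T) + 2 * NN F (T - κ) (T + κ) + 2 * NN F (2 * T - κ) (2 * T + κ) +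
        2 * ε * NN F V1 V2 := by
    calc _ ≤ 1 / Real.sqrt Real.pi * (∫ m in T..(2 * T), A1 F V1 V2 0 m).re :=
          mul_le_mul_of_nonneg_left hint (by positivity)
      _ ≤ _ := by rw [hre]; exact hsum
  have hs1 : 1 ≤ Real.sqrt Real.pi := by
    rw [Real.le_sqrt (by norm_num) (by positivity)]
    have := Real.pi_gt_three
    linarith
  have hleft : T / (2 * Real.pi) * (d * L) - T * (d * K0) - C2 * (T + T * L ^ 2 * ε) ≤ 1 / Real.sqrt Real.pi *
      (T * (1 / (2 * Real.sqrt Real.pi) * (d * L - d * K0) - C2 * (1 + L ^ 2 * ε))) := by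
    have e1 : 1 / Real.sqrt Real.pi *
      (T * (1 / (2 * Real.sqrt Real.pi) * (d * L - d * K0) - C2 * (1 + L ^ 2 * ε))) =
      T / (2 * Real.pi) * (d * L) - T * (d * K0) * (1 / (2 * Real.pi)) -
        (1 / Real.sqrt Real.pi) * (C2 * (T + T * L ^ 2 * ε)) := by
      have hs2 : Real.pi = Real.sqrt Real.pi * Real.sqrt Real.pi := by rw [← sq, hsq1]
      generalize Real.sqrt Real.pi = s at hs2 hsp ⊢
      rw [hs2]
      field_simp
    rw [e1]
    have e2 : 1 / (2 * Real.pi) ≤ 1 := by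
      rw [div_le_one (by positivity)]
      have := Real.pi_gt_three
      linarith
    have e3 : 1 / Real.sqrt Real.pi ≤ 1 := by
      rw [div_le_one hsp]
      exact hs1
    have e4 : T * (d * K0) * (1 / (2 * Real.pi)) ≤ T * (d * K0) :=
      mul_le_of_le_one_right (mul_nonneg hT0.le hdK) e2
    have e5 : (1 / Real.sqrt Real.pi) * (C2 * (T + T * L ^ 2 * ε)) ≤ C2 * (T + T * L ^ 2 * ε) :=
      mul_le_of_le_one_left (by positivity) e3
    linarith
  have g4 : 2 * ε * (NN F V1 V2 : ℝ) ≤ 8 * C1 * (T * L ^ 2 * ε) := by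
    calc 2 * ε * (NN F V1 V2 : ℝ) ≤ 2 * ε * (4 * C1 * T * L) :=
          mul_le_mul_of_nonneg_left g3 (by positivity)
      _ = 8 * C1 * T * ε * L := by ring
      _ ≤ 8 * C1 * T * ε * L ^ 2 := by
          apply mul_le_mul_of_nonneg_left _ (by positivity)
          nlinarith
      _ = _ := by ring
  have hTL : 0 ≤ T * L ^ 2 * ε := by positivity
  have hκL : 0 ≤ κ * L := by positivity
  have hK := hdK
  have q1 := mul_nonneg hK hκL
  have q2 := mul_nonneg hK hTL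
  have q3 := mul_nonneg hC2.le hκL
  have q4 := mul_nonneg hC1.le hT0.le
  have q5 := mul_nonneg hC1.le hTL
  have hexp : (d * K0 + C2 + 16 * C1 + 1) * (T + κ * L + T * L ^ 2 * ε) =
      T * (d * K0) + (d * K0) * (κ * L) + (d * K0) * (T * L ^ 2 * ε) + C2 * (T + T * L ^ 2 * ε) + C2 * (κ * L) +
      16 * (C1 * T) + 16 * C1 * (κ * L) + 16 * (C1 * (T * L ^ 2 * ε)) + T + κ * L +
      T * L ^ 2 * ε := by ring
  rw [hexp]
  have g1' : 2 * (NN F (T - κ) (T + κ) : ℝ) ≤ 8 * C1 * (κ * L) := by linarith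
  have g2' : 2 * (NN F (2 * T - κ) (2 * T + κ) : ℝ) ≤ 8 * C1 * (κ * L) := by linarith
  linarith

theorem N_lower_E (d A : ℝ) (hd : 1 ≤ d) (hA : 1 ≤ A) :
    ∃ C : ℝ, 0 < C ∧ ∀ (lc : ℝ → ℝ) (F : ℂ → ℂ) (a : ℕ → ℂ), LogC lc → GoodE d A lc F a →
    ∀ T κ : ℝ, 3 ≤ κ → 8 * κ ≤ T →
      T / (2 * Real.pi) * (d * lc T) -
        C * (T + κ * lc T + T * lc T ^ 2 * Real.exp (-κ ^ 2 / 2)) ≤
      (NN F T (2 * T) : ℝ) :=
  N_lower_core_E d A hd (fun _ _ _ hQ hF T1 T2 h => zset_finite_E hA hQ hF T1 T2 h)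
    (zcount_long_E d A hd hA) (A1_formula_E d A hd hA)

end Pool.Agent.W354.E
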