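import Pool.Agent.H385R2.GoodD

set_option autoImplicit false

/-!
Analytic input about an L-function of degree `d` whose logarithmic conductor at height `t` is an
arbitrary slowly varying function `d * lc t` (generalisation of `H385.GoodD`, where
`lc t = log (Q t)`); needed for infinity types that grow with the height.
-/

open Complex Filter Topology Set MeasureTheory
open H370 (zset mult NN Nd Ns)

namespace Pool.Agent.W354

open H385

/-- slowly varying functions, at least `log t` -/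
structure LogC (lc : ℝ → ℝ) : Prop where
  mono : ∀ x y : ℝ, 1 ≤ x → x ≤ y → lc x ≤ lc y
  low : ∀ x : ℝ, 1 ≤ x → Real.log x ≤ lc x
  slow : ∀ x y : ℝ, 1 ≤ x → x ≤ y → lc y ≤ lc x + Real.log (y / x)

/-- analytic input about an L-function of degree `d` in the upper half plane, with logarithmic
conductor `d * lc t` at height `t`. `a` is the coefficient sequence of `-F'/F`. -/
structure GoodE (d A : ℝ) (lc : ℝ → ℝ) (F : ℂ → ℂ) (a : ℕ → ℂ) : Prop where
  an : ∀ s : ℂ, 0 < s.im → AnalyticAt ℂ F s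
  growth : ∀ s : ℂ, (1 / 16 : ℝ) ≤ s.re → s.re ≤ 4 → 1 ≤ s.im → ‖F s‖ ≤ A * Real.exp (A * lc s.im)
  lower : ∀ t : ℝ, 1 ≤ t → A⁻¹ ≤ ‖F (⟨2, t⟩ : ℂ)‖
  nzr : ∀ s : ℂ, 1 ≤ s.re → 1 ≤ s.im → F s ≠ 0
  nzl : ∀ s : ℂ, s.re ≤ 0 → 1 ≤ s.im → F s ≠ 0
  symm : ∀ s : ℂ, 0 < s.re → s.re < 1 → 1 ≤ s.im →
    analyticOrderAt F (1 - (starRingEnd ℂ) s) = analyticOrderAt F s
  ha : ∀ n, ‖a n‖ ≤ d * ArithmeticFunction.vonMangoldt n
  ld : ∀ s : ℂ, 1 < s.re → 1 ≤ s.im → deriv F s / F s = - ∑' n : ℕ, a n * (n : ℂ) ^ (-s)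
  left : ∀ s : ℂ, -1 / 2 ≤ s.re → s.re ≤ 1 / 2 → 1 ≤ s.im → F s ≠ 0 →
    ‖deriv F s / F s + ((d * lc s.im : ℝ) : ℂ) +
      (starRingEnd ℂ) (deriv F (1 - (starRingEnd ℂ) s) / F (1 - (starRingEnd ℂ) s))‖ ≤ A

namespace LogC

variable {lc : ℝ → ℝ}

lemma nonneg (h : LogC lc) {x : ℝ} (hx : 1 ≤ x) : 0 ≤ lc x :=
  (Real.log_nonneg hx).trans (h.low x hx)

lemma one_le (h : LogC lc) {t : ℝ} (ht : 3 ≤ t) : 1 ≤ lc t := by
  refine le_trans ?_ (h.low t (by linarith))
  rw [Real.le_log_iff_exp_le (by linarith)]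
  have := Real.exp_one_lt_d9
  linarith

/-- comparison at heights whose quotient is at most three -/
lemma le_add (h : LogC lc) {x y : ℝ} (hx : 1 ≤ x) (hy1 : 1 ≤ y) (hxy : y ≤ 3 * x) :
    lc y ≤ lc x + Real.log 3 := by
  rcases le_total x y with h1 | h1
  · refine (h.slow x y hx h1).trans ?_
    have : Real.log (y / x) ≤ Real.log 3 := by
      apply Real.log_le_log (by positivity)
      rw [div_le_iff₀ (by linarith)]
      exact hxy
    linarith
  · have := h.mono y x hy1 h1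
    have h3 : 0 ≤ Real.log 3 := Real.log_nonneg (by norm_num)
    linarith

lemma log3 : Real.log 3 < 1.1 := by
  have h : Real.log 3 < 1.0986122888 := Real.log_three_lt_d9
  linarith

end LogC

lemma LQ_le {lc : ℝ → ℝ} (h : LogC lc) {t : ℝ} (ht : 3 ≤ t) : lc (t + 2) ≤ 2 * lc t := by
  have h1 := h.slow t (t + 2) (by linarith) (by linarith)
  have h2 : Real.log ((t + 2) / t) ≤ Real.log t := by
    apply Real.log_le_log (by positivity)
    rw [div_le_iff₀ (by linarith)]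
    nlinarith
  have h3 := h.low t (by linarith)
  linarith

lemma one_le_LQ {lc : ℝ → ℝ} (h : LogC lc) {t : ℝ} (ht : 3 ≤ t) : 1 ≤ lc t := h.one_le ht

lemma LQ_mono {lc : ℝ → ℝ} (h : LogC lc) {t s : ℝ} (ht : 1 ≤ t) (hts : t ≤ s) : lc t ≤ lc s :=
  h.mono t s ht hts

end Pool.Agent.W354
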